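import Pool.Agent.Helper74.DIH.Goals

/-!
# Project NW+, packet DIH, part D3
-/

set_option autoImplicit false

namespace Pool.Agent.Helper2.DIH

open Pool.Agent.Helper52.Wq2 Pool.Agent.Helper61.NW

universe u

theorem h_one {Γ : Type u} [Group Γ] {ε : Γ →* ℤˣ} {h : Γ → ℤ} (d : Dh ε h) : h 1 = 0 := by
  have := d.coc 1 1
  rw [mul_one, map_one] at this
  push_cast at this
  omega

theorem gen_all {Γ : Type u} [Group Γ] {ε : Γ →* ℤˣ} {h : Γ → ℤ} (d : Dh ε h) {S : Set Γ}
    (hS : IsGen S) (c : ℤ) (hc : ∀ u ∈ S, 2 * h u = (1 - (ε u : ℤ)) * c) (x : Γ) :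
    2 * h x = (1 - (ε x : ℤ)) * c := by
  have hx : x ∈ Subgroup.closure S := by
    rw [hS.1]
    exact Subgroup.mem_top x
  induction hx using Subgroup.closure_induction with
  | mem u hu => exact hc u hu
  | one =>
    rw [h_one d, map_one]
    push_cast
    ring
  | mul a b _ _ ha hb =>
    rw [d.coc, map_mul]
    push_cast
    linear_combination ha + (ε a : ℤ) * hb
  | inv a _ ha =>
    have h1 := d.coc a a⁻¹
    rw [mul_inv_cancel, h_one d] at h1
    have h2 : (ε a : ℤ) * (ε a : ℤ) = 1 := by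
      rw [← Units.val_mul, Int.units_mul_self, Units.val_one]
    have h3 : ((ε a⁻¹ : ℤˣ) : ℤ) = (ε a : ℤ) := by
      rw [map_inv, Int.units_inv_eq_self]
    rw [h3]
    linear_combination (-2 * (ε a : ℤ)) * h1 - (ε a : ℤ) * ha + (c - 2 * h a⁻¹) * h2

theorem d3 : Pool.Agent.Helper74.DIH.D3Stmt.{u} := by
  intro Γ _ ε h S d hS hfin
  -- a reflection in `S`
  have hR : ∃ u ∈ S, ε u = -1 := by
    by_contra hcon
    push Not at hcon
    obtain ⟨u, hu⟩ := d.neg
    have h1 : Subgroup.closure S ≤ ε.ker := by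
      rw [Subgroup.closure_le]
      intro v hv
      rcases Int.units_eq_one_or (ε v) with he | he
      · exact MonoidHom.mem_ker.2 he
      · exact absurd he (hcon v hv)
    have h2 : u ∈ ε.ker := h1 (by rw [hS.1]; exact Subgroup.mem_top u)
    rw [MonoidHom.mem_ker, hu] at h2
    exact absurd h2 (by decide)
  have hRf : {u | u ∈ S ∧ ε u = -1}.Finite := hfin.subset fun u hu => hu.1
  obtain ⟨t, ⟨htS, hte⟩, htm⟩ := Set.exists_max_image {u | u ∈ S ∧ ε u = -1} h hRf
    (by obtain ⟨u, h1, h2⟩ := hR; exact ⟨u, h1, h2⟩)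
  obtain ⟨r, ⟨hrS, hre⟩, hrm⟩ := Set.exists_min_image {u | u ∈ S ∧ ε u = -1} h hRf
    (by obtain ⟨u, h1, h2⟩ := hR; exact ⟨u, h1, h2⟩)
  have hA : h r ≤ h t := hrm t ⟨htS, hte⟩
  have hrefl : ∀ u ∈ S, ε u = -1 →
      |4 * h u + ((ε u : ℤ) - 1) * (h t + h r)| ≤ 2 * (h t - h r) := by
    intro u hu he
    have h1 := htm u ⟨hu, he⟩
    have h2 := hrm u ⟨hu, he⟩
    rw [he, abs_le]
    push_cast
    constructor <;> omega
  by_cases hbig : ∃ u ∈ S, ε u = 1 ∧ 2 * (h t - h r) < 4 * |h u|
  · -- translations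
    obtain ⟨u, huS, hue, hub⟩ := hbig
    have hTf : {u | u ∈ S ∧ ε u = 1}.Finite := hfin.subset fun u hu => hu.1
    obtain ⟨s, ⟨hsS, hse⟩, hsm⟩ := Set.exists_max_image {u | u ∈ S ∧ ε u = 1} (fun v => |h v|) hTf
      ⟨u, huS, hue⟩
    have hs1 : |h u| ≤ |h s| := hsm u ⟨huS, hue⟩
    have hsi : h s⁻¹ = - h s := by
      have h1 := d.coc s s⁻¹
      rw [mul_inv_cancel, h_one d, hse] at h1
      push_cast at h1
      omega
    have hpos : 0 < |h s| := by omega
    have hall : ∀ v ∈ S, |4 * h v + ((ε v : ℤ) - 1) * (h t + h r)| ≤ 4 * |h s| := by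
      intro v hv
      rcases Int.units_eq_one_or (ε v) with he | he
      · have h1 : |h v| ≤ |h s| := hsm v ⟨hv, he⟩
        rw [he]
        have e1 : 4 * h v + (((1 : ℤˣ) : ℤ) - 1) * (h t + h r) = 4 * h v := by
          push_cast; ring
        rw [e1, abs_mul, abs_of_pos (show (0 : ℤ) < 4 by norm_num)]
        omega
      · have h1 := hrefl v hv he
        omega
    have hsie : ε s⁻¹ = 1 := by rw [map_inv, hse, inv_one]
    rcases lt_or_ge (h s) 0 with hneg | hge
    · rw [abs_of_neg hneg] at hpos hall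
      refine ⟨h t + h r, 4 * -h s, s⁻¹, s, by omega, hS.2.1 s hsS, hsS, Or.inl ⟨hsie, ?_⟩, ?_, ?_,
        hall⟩
      · rw [inv_inv]
      · rw [hsie, hsi]
        push_cast
        ring
      · rw [hse]
        push_cast
        ring
    · rw [abs_of_nonneg hge] at hpos hall
      refine ⟨h t + h r, 4 * h s, s, s⁻¹, by omega, hsS, hS.2.1 s hsS, Or.inl ⟨hse, rfl⟩, ?_, ?_,
        hall⟩
      · rw [hse]
        push_cast
        ring
      · rw [hsie, hsi]
        push_cast
        ring
  · push Not at hbig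
    have hH : 0 < 2 * (h t - h r) := by
      by_contra hcon
      have he : h t = h r := by omega
      obtain ⟨g, hg1, hg2⟩ := d.unb
      have key := gen_all d hS (h t) (by
        intro u hu
        rcases Int.units_eq_one_or (ε u) with he' | he'
        · have h1 := hbig u hu he'
          have h2 := abs_nonneg (h u)
          have h3 : |h u| = 0 := by omega
          rw [abs_eq_zero.1 h3, he']
          push_cast
          ring
        · have h1 := htm u ⟨hu, he'⟩
          have h2 := hrm u ⟨hu, he'⟩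
          rw [he']
          push_cast
          omega) g
      rw [hg1] at key
      push_cast at key
      omega
    refine ⟨h t + h r, 2 * (h t - h r), t, r, hH, htS, hrS, Or.inr ⟨hte, hre⟩, ?_, ?_, ?_⟩
    · rw [hte]
      push_cast
      ring
    · rw [hre]
      push_cast
      ring
    · intro v hv
      rcases Int.units_eq_one_or (ε v) with he | he
      · have h1 := hbig v hv he
        rw [he]
        have e1 : 4 * h v + (((1 : ℤˣ) : ℤ) - 1) * (h t + h r) = 4 * h v := by
          push_cast; ring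
        rw [e1, abs_mul, abs_of_pos (show (0 : ℤ) < 4 by norm_num)]
        exact h1
      · exact hrefl v hv he

end Pool.Agent.Helper2.DIH
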