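import Pool.Agent.Helper74.DIH.Goals

/-!
# Project NW+, packet DIH, part D4
-/

set_option autoImplicit false

namespace Pool.Agent.Helper2.DIH

open Pool.Agent.Helper52.Wq2 Pool.Agent.Helper61.NW

universe u

theorem fib_finite {Γ : Type u} [Group Γ] {ε : Γ →* ℤˣ} {h : Γ → ℤ} (d : Dh ε h) (e : ℤˣ)
    (k : ℤ) : {g | ε g = e ∧ h g = k}.Finite := by
  rcases Set.eq_empty_or_nonempty {g | ε g = e ∧ h g = k} with h0 | ⟨g₀, h1, h2⟩
  · rw [h0]
    exact Set.finite_empty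
  · refine (d.ker.image (fun x => g₀ * x)).subset ?_
    rintro g ⟨k1, k2⟩
    refine ⟨g₀⁻¹ * g, ⟨?_, ?_⟩, ?_⟩
    · rw [map_mul, map_inv, h1, k1, inv_mul_cancel]
    · have := d.coc g₀ (g₀⁻¹ * g)
      rw [mul_inv_cancel_left, k2, h2] at this
      have h3 : (ε g₀ : ℤ) * h (g₀⁻¹ * g) = 0 := by omega
      rcases mul_eq_zero.1 h3 with h4 | h4
      · exact absurd h4 (Units.ne_zero _)
      · exact h4
    · show g₀ * (g₀⁻¹ * g) = g
      rw [mul_inv_cancel_left]

theorem d4 : Pool.Agent.Helper74.DIH.D4Stmt.{u} := by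
  intro Γ _ ε h d y₀ H ψ hH hψ
  have hfin : {g | 0 ≤ 4 * h g + (ε g : ℤ) * y₀ ∧ 4 * h g + (ε g : ℤ) * y₀ < H}.Finite := by
    have hcov : {g | 0 ≤ 4 * h g + (ε g : ℤ) * y₀ ∧ 4 * h g + (ε g : ℤ) * y₀ < H} ⊆
        ⋃ k ∈ Set.Icc (-(|y₀| + H)) (|y₀| + H),
          ({g | ε g = 1 ∧ h g = k} ∪ {g | ε g = -1 ∧ h g = k}) := by
      rintro g ⟨h1, h2⟩
      have h3 := abs_nonneg y₀
      have h4 := le_abs_self y₀
      have h5 := neg_abs_le y₀
      rcases Int.units_eq_one_or (ε g) with he | he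
      · rw [he] at h1 h2
        push_cast at h1 h2
        refine Set.mem_biUnion (x := h g) ⟨by omega, by omega⟩ (Or.inl ⟨he, rfl⟩)
      · rw [he] at h1 h2
        push_cast at h1 h2
        refine Set.mem_biUnion (x := h g) ⟨by omega, by omega⟩ (Or.inr ⟨he, rfl⟩)
    refine Set.Finite.subset ?_ hcov
    refine Set.Finite.biUnion (Set.finite_Icc _ _) ?_
    intro k _
    exact (fib_finite d 1 k).union (fib_finite d (-1) k)
  have hpow : ∀ (j : ℤ) (g : Γ), 4 * h ((ψ ^ j) g) + (ε ((ψ ^ j) g) : ℤ) * y₀ =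
      4 * h g + (ε g : ℤ) * y₀ + j * H := by
    intro j
    induction j using Int.induction_on with
    | zero =>
      intro g
      rw [zpow_zero, Equiv.Perm.one_apply]
      ring
    | succ i ih =>
      intro g
      rw [zpow_add_one, Equiv.Perm.mul_apply, ih, hψ]
      ring
    | pred i ih =>
      intro g
      rw [zpow_sub_one, Equiv.Perm.mul_apply, ih]
      have h1 := hψ (ψ⁻¹ g)
      have h0 : ψ (ψ⁻¹ g) = g := by
        rw [← Equiv.Perm.mul_apply, mul_inv_cancel, Equiv.Perm.one_apply]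
      rw [h0] at h1
      rw [h1]
      ring
  have h1z : h 1 = 0 := by
    have := d.coc 1 1
    rw [mul_one, map_one] at this
    push_cast at this
    omega
  refine ⟨hfin, ?_, ?_⟩
  · refine Set.ncard_le_ncard_of_injOn (fun g => (ψ ^ (-(y₀ / H))) g) ?_ ?_ hfin
    · rintro g ⟨k1, k2⟩
      have h2 := hpow (-(y₀ / H)) g
      rw [k1, k2] at h2
      push_cast at h2
      have e1 := Int.emod_add_mul_ediv y₀ H
      have e2 := Int.emod_nonneg y₀ hH.ne'
      have e3 := Int.emod_lt_of_pos y₀ hH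
      have e4 : -(y₀ / H) * H = -(H * (y₀ / H)) := by ring
      rw [e4] at h2
      show 0 ≤ 4 * h ((ψ ^ (-(y₀ / H))) g) + (ε ((ψ ^ (-(y₀ / H))) g) : ℤ) * y₀ ∧
        4 * h ((ψ ^ (-(y₀ / H))) g) + (ε ((ψ ^ (-(y₀ / H))) g) : ℤ) * y₀ < H
      constructor
      · rw [h2]; omega
      · rw [h2]; omega
    · intro a _ b _ hab
      exact (ψ ^ (-(y₀ / H))).injective hab
  · rw [Set.ncard_pos d.ker]
    exact ⟨1, map_one ε, h1z⟩

end Pool.Agent.Helper2.DIH
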